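import Mathlib
import Pool.Agent.R464.TwoNearDiv

/-!
# 2-near perfect numbers `2 ^ k * p ^ m` with `m ≥ 3`

For `m ≥ 3` the number `2 ^ k * p ^ m` (`k ≥ 1`, `p` an odd prime) is 2-near perfect exactly when
`m = 3` and `p = 2 ^ (k + 1) - 1`.
-/

set_option autoImplicit false

namespace Pool.Agent.Results.MP_24a6f7_nt.MersenneClassification

/-- `n` is 2-near perfect: `σ(n) = 2 n + d₁ + d₂` for two distinct positive divisors `d₁`, `d₂`
of `n`. -/
def TwoNearPerfect (n : ℕ) : Prop :=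
  0 < n ∧ ∃ d₁ d₂ : ℕ, 0 < d₁ ∧ 0 < d₂ ∧ d₁ ∣ n ∧ d₂ ∣ n ∧ d₁ ≠ d₂ ∧
    ∑ d ∈ n.divisors, d = 2 * n + d₁ + d₂

theorem iff_mersenne (m k p : ℕ) (hm : 3 ≤ m) (hp : p.Prime) (hpo : Odd p) :
    TwoNearPerfect (2 ^ k * p ^ m) ↔ m = 3 ∧ p = 2 ^ (k + 1) - 1 := by
  constructor
  · rintro ⟨-, d₁, d₂, -, -, h1, h2, hne, h⟩
    rcases R464.TwoNear.classification hp hpo (by omega) h1 h2 hne h with h3 | h3
    · omega
    · exact h3
  · rintro ⟨rfl, hk⟩
    have hp0 := hp.pos
    refine ⟨by positivity, p, p ^ 2, hp0, by positivity, ?_, ?_, ?_,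
      R464.TwoNear.mersenne_family hp hk⟩
    · exact Dvd.dvd.mul_left (dvd_pow_self p (by norm_num)) _
    · exact Dvd.dvd.mul_left (pow_dvd_pow p (by norm_num)) _
    · intro h
      have := hp.one_lt
      nlinarith

/-- The 2-near perfect numbers of the form `2 ^ k * p ^ m`, with `k ≥ 1` and `p` an odd prime. -/
def family (m : ℕ) : Set ℕ :=
  {n | TwoNearPerfect n ∧ ∃ k p : ℕ, 1 ≤ k ∧ p.Prime ∧ Odd p ∧ n = 2 ^ k * p ^ m}

/-- The set of Mersenne primes. -/
def mersennePrimes : Set ℕ := {q | q.Prime ∧ ∃ r : ℕ, q = 2 ^ r - 1}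

theorem result :
    (∀ m k p : ℕ, 3 ≤ m → 1 ≤ k → p.Prime → Odd p →
      (TwoNearPerfect (2 ^ k * p ^ m) ↔ m = 3 ∧ p = 2 ^ (k + 1) - 1)) ∧
    ((∀ m : ℕ, 3 ≤ m → (family m).Finite) ↔ mersennePrimes.Finite) := by
  have hempty : ∀ m : ℕ, 4 ≤ m → family m = ∅ := by
    intro m hm
    ext n
    simp only [family, Set.mem_ofPred_eq, Set.mem_empty_iff_false, iff_false, not_and]
    rintro hn ⟨k, p, hk, hp, hpo, rfl⟩
    have := (iff_mersenne m k p (by omega) hp hpo).mp hn
    omega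
  refine ⟨fun m k p hm _ hp hpo => iff_mersenne m k p hm hp hpo, ?_⟩
  constructor
  · intro h
    have h3 := h 3 le_rfl
    -- the map `q ↦ (q + 1) / 2 * q ^ 3` is injective from Mersenne primes to `family 3`
    refine Set.Finite.of_finite_image (f := fun q => (q + 1) / 2 * q ^ 3) (h3.subset ?_) ?_
    · rintro _ ⟨q, ⟨hq, r, hr⟩, rfl⟩
      have hq2 := hq.two_le
      have hr2 : 2 ≤ r := by
        by_contra hcon
        have : r = 0 ∨ r = 1 := by omega
        rcases this with rfl | rfl <;> simp at hr <;> omega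
      obtain ⟨k, rfl⟩ : ∃ k, r = k + 1 := ⟨r - 1, by omega⟩
      have h1 : 1 ≤ 2 ^ (k + 1) := Nat.one_le_two_pow
      have h2 : (q + 1) / 2 = 2 ^ k := by
        rw [hr, pow_succ] at *
        omega
      have hqo : Odd q := by
        rw [hr]
        apply Nat.Even.sub_odd h1
        · rw [Nat.even_pow]; exact ⟨even_two, by omega⟩
        · exact odd_one
      simp only [h2]
      refine ⟨(iff_mersenne 3 k q le_rfl hq hqo).mpr ⟨rfl, hr⟩, k, q, by omega, hq, hqo, rfl⟩
    · intro q hq q' hq' hqq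
      simp only at hqq
      by_contra hne
      rcases lt_or_gt_of_ne hne with hlt | hlt
      · have h1 : (q + 1) / 2 ≤ (q' + 1) / 2 := Nat.div_le_div_right (by omega)
        have h2 : q ^ 3 < q' ^ 3 := Nat.pow_lt_pow_left hlt (by norm_num)
        have h3 : 0 < (q' + 1) / 2 := by have := hq'.1.two_le; omega
        have : (q + 1) / 2 * q ^ 3 < (q' + 1) / 2 * q' ^ 3 :=
          lt_of_le_of_lt (Nat.mul_le_mul_right _ h1) (Nat.mul_lt_mul_of_pos_left h2 h3)
        omega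
      · have h1 : (q' + 1) / 2 ≤ (q + 1) / 2 := Nat.div_le_div_right (by omega)
        have h2 : q' ^ 3 < q ^ 3 := Nat.pow_lt_pow_left hlt (by norm_num)
        have h3 : 0 < (q + 1) / 2 := by have := hq.1.two_le; omega
        have : (q' + 1) / 2 * q' ^ 3 < (q + 1) / 2 * q ^ 3 :=
          lt_of_le_of_lt (Nat.mul_le_mul_right _ h1) (Nat.mul_lt_mul_of_pos_left h2 h3)
        omega
  · intro h m hm
    rcases Nat.lt_or_ge m 4 with hm4 | hm4
    · have : m = 3 := by omega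
      subst this
      refine (h.image (fun q => (q + 1) / 2 * q ^ 3)).subset ?_
      rintro _ ⟨hn, k, p, hk, hp, hpo, rfl⟩
      have h1 := ((iff_mersenne 3 k p le_rfl hp hpo).mp hn).2
      refine ⟨p, ⟨hp, k + 1, h1⟩, ?_⟩
      have h3 : 1 ≤ 2 ^ (k + 1) := Nat.one_le_two_pow
      have h2 : (p + 1) / 2 = 2 ^ k := by
        rw [h1, pow_succ] at *
        omega
      simp only [h2]
    · rw [hempty m hm4]
      exact Set.finite_empty

end Pool.Agent.Results.MP_24a6f7_nt.MersenneClassification
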